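import Pool.Agent.TH266.UM.Cnt

set_option autoImplicit false

namespace Pool.Agent.TH416.UM

open Finset Pool.Agent.TH266.UM
open Pool.Agent.TH79.NW (phi ceil_phi)
open Pool.Agent.TH641.NW (Lam ell Lam_up Lam_low ell_row)

theorem lt_hh {k A j i : ℕ} (hj : j < k) : i < hh k A j ↔ j + k * i < A := by
  unfold hh
  rw [← Nat.succ_le_iff, Nat.le_div_iff_mul_le (by omega), Nat.succ_eq_add_one]
  have h1 : (i + 1) * k = k * i + k := by ring
  rw [h1]
  omega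

theorem reidx {k : ℕ} (hk : 1 ≤ k) (A B : ℕ) (f : ℕ → ℝ) :
    ∑ j ∈ range k, ∑ i ∈ Ico (hh k A j) (hh k B j), f (j + k * i) = ∑ J ∈ Ico A B, f J := by
  rw [Finset.sum_sigma']
  have hmem : ∀ p : (_ : ℕ) × ℕ, p ∈ (range k).sigma (fun j => Ico (hh k A j) (hh k B j)) ↔
      p.1 < k ∧ A ≤ p.1 + k * p.2 ∧ p.1 + k * p.2 < B := by
    intro p
    rw [mem_sigma, mem_range, mem_Ico]
    constructor
    · rintro ⟨h1, h2, h3⟩
      rw [lt_hh h1] at h3
      rw [← not_lt, lt_hh h1] at h2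
      exact ⟨h1, not_lt.mp h2, h3⟩
    · rintro ⟨h1, h2, h3⟩
      refine ⟨h1, ?_, ?_⟩
      · rw [← not_lt, lt_hh h1]
        exact not_lt.mpr h2
      · rw [lt_hh h1]
        exact h3
  refine Finset.sum_bij' (fun p _ => p.1 + k * p.2) (fun J _ => ⟨J % k, J / k⟩) ?_ ?_ ?_ ?_ ?_
  · intro p hp
    rw [hmem] at hp
    exact mem_Ico.mpr hp.2
  · intro J hJ
    rw [hmem]
    have h1 : J % k + k * (J / k) = J := Nat.mod_add_div J k
    refine ⟨Nat.mod_lt _ (by omega), ?_, ?_⟩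
    · show A ≤ J % k + k * (J / k)
      rw [h1]
      exact (mem_Ico.mp hJ).1
    · show J % k + k * (J / k) < B
      rw [h1]
      exact (mem_Ico.mp hJ).2
  · rintro ⟨j, i⟩ hp
    rw [hmem] at hp
    obtain ⟨hj, -⟩ := hp
    have h1 : (j + k * i) % k = j := by
      rw [Nat.add_mul_mod_self_left, Nat.mod_eq_of_lt hj]
    have h2 : (j + k * i) / k = i := by
      rw [Nat.add_mul_div_left _ _ (by omega), Nat.div_eq_of_lt hj, zero_add]
    simp only [h1, h2]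
  · intro J _
    exact Nat.mod_add_div J k
  · intro p _
    rfl

theorem hh_add {k : ℕ} (hk : 1 ≤ k) (A j : ℕ) : hh k (A + k) j = hh k A j + 1 := by
  unfold hh
  rw [show A + k + (k - 1 - j) = A + (k - 1 - j) + k by omega, Nat.add_div_right _ (by omega)]

theorem sum_hh {k : ℕ} (hk : 1 ≤ k) (H : ℕ) : ∑ j ∈ range k, (hh k H j : ℝ) = H := by
  have h1 := reidx hk 0 H (fun _ => 1)
  have h2 : ∀ j, hh k 0 j = 0 := by
    intro j
    unfold hh
    exact Nat.div_eq_of_lt (by omega)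
  simp only [h2, sum_const, Nat.card_Ico, Nat.sub_zero, nsmul_eq_mul, mul_one] at h1
  exact h1

theorem reidx1 {k : ℕ} (hk : 1 ≤ k) (H : ℕ) (f : ℕ → ℝ) :
    ∑ j ∈ range k, f (j + k * hh k H j) = ∑ J ∈ Ico H (H + k), f J := by
  rw [← reidx hk H (H + k) f]
  refine sum_congr rfl fun j _ => ?_
  rw [hh_add hk, Nat.Ico_succ_singleton, sum_singleton]

theorem reidx2 {k : ℕ} (hk : 1 ≤ k) (H Q : ℕ) (f : ℕ → ℝ) :
    ∑ j ∈ range k, ∑ i ∈ Ico (hh k H j + 1) (hh k (Q + 1) j), f (j + k * i) =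
      ∑ J ∈ Ico (H + k) (Q + 1), f J := by
  rw [← reidx hk (H + k) (Q + 1) f]
  refine sum_congr rfl fun j _ => ?_
  rw [hh_add hk]

/-- rounding error of the right end -/
noncomputable def pb (lam : ℝ) (d J : ℕ) : ℝ := phi ((9 - lam) * ((d : ℝ) / 3 - J))

/-- rounding error of the left end -/
noncomputable def pa (lam : ℝ) (d k t J : ℕ) : ℝ := phi (lam * ((d : ℝ) / 3 - (J + k * t)))

theorem bb_eq (lam : ℝ) (v : ℤ) (k d j i : ℕ) :
    (bb lam v k d j i : ℝ) = (9 - lam) * ((d : ℝ) / 3 - (j + k * i : ℕ)) + v * i - 1 / 2 +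
      pb lam d (j + k * i) := by
  unfold bb UU pb phi
  push_cast
  ring

theorem aa_eq (lam : ℝ) (v : ℤ) (k d t j i : ℕ) :
    (aa lam v k d t j i : ℝ) = -(lam * ((d : ℝ) / 3 - ((j + k * i : ℕ) + k * t))) + v * (i + t) +
      1 / 2 - pa lam d k t (j + k * i) := by
  unfold aa LL pa
  push_cast
  rw [ceil_phi, Nat.zero_sub, neg_neg]
  have h1 : lam * ((d : ℝ) / 3 - (j + k * (i + t))) = lam * ((d : ℝ) / 3 - (j + k * i + k * t)) := by
    ring
  push_cast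
  rw [h1]
  ring

theorem phi_sub_nat (z : ℝ) (n : ℕ) : phi (z - n) = phi z := by
  unfold phi
  rw [Int.floor_sub_natCast]
  push_cast
  ring

theorem sum_pb (hrot : S_ROT) {P : ℕ} {lam δ : ℝ} (hP : 10 ≤ P) (hlam : lam = 4 + 1 / P + δ)
    (hδ0 : 0 ≤ δ) (hδ : δ * P ^ 2 ≤ 1) (d H N : ℕ) :
    |∑ J ∈ Ico H (H + N), pb lam d J| ≤ 2 * N / P + P / 2 := by
  have h1 := (hrot P lam δ ((9 - lam) * ((d : ℝ) / 3 - H)) hP hlam hδ0 hδ N).1
  rw [sum_Ico_eq_sum_range, Nat.add_sub_cancel_left]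
  have h2 : ∀ s : ℕ, pb lam d (H + s) = phi ((9 - lam) * ((d : ℝ) / 3 - H) + lam * s) := by
    intro s
    unfold pb
    rw [← phi_sub_nat ((9 - lam) * ((d : ℝ) / 3 - H) + lam * s) (9 * s)]
    congr 1
    push_cast
    ring
  rw [sum_congr rfl fun s _ => h2 s]
  exact h1

theorem sum_pa (hrot : S_ROT) {P : ℕ} {lam δ : ℝ} (hP : 10 ≤ P) (hlam : lam = 4 + 1 / P + δ)
    (hδ0 : 0 ≤ δ) (hδ : δ * P ^ 2 ≤ 1) (d k t H N : ℕ) :
    |∑ J ∈ Ico H (H + N), pa lam d k t J| ≤ 2 * N / P + P / 2 := by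
  have h1 := (hrot P lam δ (lam * ((d : ℝ) / 3 - (H + k * t))) hP hlam hδ0 hδ N).2
  rw [sum_Ico_eq_sum_range, Nat.add_sub_cancel_left]
  have h2 : ∀ s : ℕ, pa lam d k t (H + s) = phi (lam * ((d : ℝ) / 3 - (H + k * t)) - lam * s) := by
    intro s
    unfold pa
    congr 1
    push_cast
    ring
  rw [sum_congr rfl fun s _ => h2 s]
  exact h1

theorem sum_cntj {k : ℕ} (hk : 1 ≤ k) {v : ℤ} {K lam : ℝ} (hK : (k : ℝ) * lam + v = K)
    (d e t H Q : ℕ) (hHk : H + k ≤ Q + 1) (hHQ : H ≤ Q) :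
    ((∑ j ∈ range k, cntj lam v k d e t H Q j : ℤ) : ℝ) =
      Lam (3 * d - K * t) K H Q - ∑ j ∈ range k, ((e - k * t - j : ℕ) : ℝ) +
        (∑ J ∈ Ico H (Q + 1), pb lam d J + ∑ J ∈ Ico 0 k, pa lam d k t J +
          ∑ J ∈ Ico (H + k) (Q + 1), pa lam d k t J) := by
  have h1 : ∀ j, (cntj lam v k d e t H Q j : ℝ) =
      ((3 * d - K * t - 9 * ((j + k * hh k H j : ℕ) : ℝ)) + pb lam d (j + k * hh k H j)) +
        K * hh k H j + pa lam d k t j - ((e - k * t - j : ℕ) : ℝ) +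
      ∑ i ∈ Ico (hh k H j + 1) (hh k (Q + 1) j),
        ((3 * d - K * t - 9 * ((j + k * i : ℕ) : ℝ)) + pb lam d (j + k * i) +
          pa lam d k t (j + k * i)) := by
    intro j
    unfold cntj
    rw [Int.cast_add, Int.cast_sum]
    congr 1
    · have h2 := bb_eq lam v k d j (hh k H j)
      have h3 := aa_eq lam v k d t j 0
      rw [mul_zero, add_zero] at h3
      rw [Int.cast_sub, Int.cast_sub, Int.cast_add, Int.cast_one, h2, h3, ← hK]
      push_cast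
      ring
    · refine sum_congr rfl fun i _ => ?_
      have h2 := bb_eq lam v k d j i
      have h3 := aa_eq lam v k d t j i
      rw [Int.cast_sub, Int.cast_add, Int.cast_one, h2, h3, ← hK]
      push_cast
      ring
  rw [Int.cast_sum, sum_congr rfl fun j _ => h1 j, sum_add_distrib, sum_sub_distrib,
    sum_add_distrib, sum_add_distrib,
    reidx1 hk H (fun J => (3 * d - K * t - 9 * (J : ℝ)) + pb lam d J),
    reidx2 hk H Q (fun J => (3 * d - K * t - 9 * (J : ℝ)) + pb lam d J + pa lam d k t J),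
    ← mul_sum, sum_hh hk, range_eq_Ico]
  have h6 : ∑ J ∈ Ico (H + k) (Q + 1),
      ((3 * d - K * t - 9 * (J : ℝ)) + pb lam d J + pa lam d k t J) =
      ∑ J ∈ Ico (H + k) (Q + 1), ((3 * d - K * t - 9 * (J : ℝ)) + pb lam d J) +
        ∑ J ∈ Ico (H + k) (Q + 1), pa lam d k t J := sum_add_distrib
  have h4 : ∑ J ∈ Ico H (H + k), ((3 * d - K * t - 9 * (J : ℝ)) + pb lam d J) +
      ∑ J ∈ Ico (H + k) (Q + 1), ((3 * d - K * t - 9 * (J : ℝ)) + pb lam d J) =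
      ∑ J ∈ Ico H (Q + 1), ((3 * d - K * t - 9 * (J : ℝ)) + pb lam d J) :=
    sum_Ico_consecutive _ (by omega) hHk
  have h5 : ∑ J ∈ Ico H (Q + 1), (3 * (d : ℝ) - K * t - 9 * (J : ℝ)) =
      Lam (3 * d - K * t) K H Q - K * H := by
    unfold Lam
    rw [sum_eq_sum_Ico_succ_bot (by omega), Pool.Agent.TH79.NW.Ico_succ]
    ring
  rw [sum_add_distrib (s := Ico H (Q + 1)), h5] at h4
  rw [h6]
  linarith

theorem cntN (hrot : Pool.Agent.TH266.UM.S_ROT) : Pool.Agent.TH266.UM.S_CNTN := by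
  intro P k v K lam δ hp d e t H Q hY hHQ hQ1 hQ2 h2 h3
  have hk : 1 ≤ k := le_trans (by have := hp.hP; omega) hp.hk
  have hP10 : (10 : ℝ) ≤ P := by exact_mod_cast hp.hP
  have hHk : H + k ≤ Q + 1 := by
    have h4 : 9 * ((H : ℝ) + k) < 9 * (Q + 2) := by have := hp.h9; linarith
    have h5 : ((H + k : ℕ) : ℝ) < ((Q + 2 : ℕ) : ℝ) := by push_cast; linarith
    have h6 : H + k < Q + 2 := by exact_mod_cast h5
    omega
  have hN : Q + 1 - H ≤ 2 * k + 1 := by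
    have h4 : 9 * (Q : ℝ) - 9 * H < 18 * k + 1 := by have := hp.h18; linarith
    have h5 : 9 * (Q : ℝ) < 9 * H + 18 * k + 1 := by linarith
    have h6 : 9 * Q < 9 * H + 18 * k + 1 := by exact_mod_cast h5
    omega
  rw [sum_cntj hk hp.hlam d e t H Q hHk hHQ]
  have e1 := sum_pb hrot hp.hP hp.hrot hp.hδ0 hp.hδ d H (Q + 1 - H)
  rw [show H + (Q + 1 - H) = Q + 1 by omega] at e1
  have e2 := sum_pa hrot hp.hP hp.hrot hp.hδ0 hp.hδ d k t 0 k
  rw [zero_add] at e2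
  have e3 := sum_pa hrot hp.hP hp.hrot hp.hδ0 hp.hδ d k t (H + k) (Q + 1 - (H + k))
  rw [show H + k + (Q + 1 - (H + k)) = Q + 1 by omega] at e3
  have e4 := Lam_up hHQ hQ2 hQ1 h2 h3
  have e5 := Lam_low (K := K) hHQ hQ2 hQ1
  rw [ell_row] at e4 e5
  have e6 : (2 * ((Q + 1 - H : ℕ) : ℝ) / P + P / 2) + (2 * (k : ℝ) / P + P / 2) +
      (2 * ((Q + 1 - (H + k) : ℕ) : ℝ) / P + P / 2) + 9 / 8 ≤ err P k := by
    have h4 : ((Q + 1 - (H + k) : ℕ) : ℝ) = ((Q + 1 - H : ℕ) : ℝ) - k := by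
      rw [show Q + 1 - (H + k) = Q + 1 - H - k by omega, Nat.cast_sub (by omega)]
    have h5 : ((Q + 1 - H : ℕ) : ℝ) ≤ 2 * k + 1 := by exact_mod_cast hN
    rw [h4]
    unfold err
    have h6 : 2 * ((Q + 1 - H : ℕ) : ℝ) / P ≤ 2 * (2 * k + 1) / P := by
      apply div_le_div_of_nonneg_right _ (by linarith)
      linarith
    have h7 : 4 / (P : ℝ) ≤ 1 := by
      rw [div_le_one (by linarith)]
      linarith
    have h8 : (2 * ((Q + 1 - H : ℕ) : ℝ) / P + P / 2) + (2 * (k : ℝ) / P + P / 2) +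
        (2 * (((Q + 1 - H : ℕ) : ℝ) - k) / P + P / 2) =
        2 * (2 * ((Q + 1 - H : ℕ) : ℝ) / P) + 3 * P / 2 := by ring
    have h9 : 2 * (2 * (2 * (k : ℝ) + 1) / P) = 8 * (k : ℝ) / P + 4 / P := by ring
    rw [h8]
    linarith
  rw [abs_le] at e1 e2 e3 ⊢
  unfold Pool.Agent.TH266.UM.main
  constructor <;> linarith [e1.1, e1.2, e2.1, e2.2, e3.1, e3.2]

end Pool.Agent.TH416.UM
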